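import Pool.Agent.E8helper85.CT3.Lem

/-!
# The exponent of `lam` in a product with trivial cubic character
-/

set_option autoImplicit false
set_option linter.unusedSectionVars false

open scoped Classical

namespace Pool.Agent.E8helper41.CTK3

open Pool.Agent.Y692.QS (Ei w nr)
open Pool.Agent.Y715.T.Gi Pool.Agent.Y715.T.Nr Pool.Agent.Y715.T.Df
open Pool.Agent.Y715.T.Sel (kc_congr ex_root root_ne)
open Pool.Agent.Y48.CT.SEL (pr0 not_assoc_lam)
open Pool.Agent.Y703.CT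
open Pool.Agent.E8helper20.CT3
open Pool.Agent.E8helper85.CT3 (three_pD_ne)

variable {i₀ : QB} {hi : i₀ ^ 2 + i₀ + 1 = 0}

/-- a trivial character means a cube in the field `ℚ(ω)` -/
lemma cube_of_triv {z : Ei} {h : GK i₀ → ZMod 3} (hk : Kc hi z h) (h0 : ∀ σ, h σ = 0) :
    ∃ y x : Ei, y ≠ 0 ∧ z * y ^ 3 = x ^ 3 := by
  obtain ⟨s, hs⟩ := ex_root (ev i₀ hi z)
  have h1 : ∀ σ : GK i₀, σ s = s := by
    intro σ
    rw [hk s hs σ, h0 σ, ZMod.val_zero, pow_zero, one_mul]
  have h2 : s ∈ Set.range (algebraMap (KK i₀) QB) :=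
    (InfiniteGalois.mem_range_algebraMap_iff_fixed s).2 h1
  obtain ⟨⟨t, ht⟩, rfl⟩ := h2
  obtain ⟨a, b, e⟩ := KK_ex hi ht
  have hda : (a.den : QB) ≠ 0 := by exact_mod_cast a.den_ne_zero
  have hdb : (b.den : QB) ≠ 0 := by exact_mod_cast b.den_ne_zero
  have hn0 : ((a.den * b.den : ℕ) : Ei) ≠ 0 := by
    intro h3
    have h4 := congrArg (ev i₀ hi) h3
    rw [map_natCast, map_zero] at h4
    push_cast at h4
    exact mul_ne_zero hda hdb h4
  refine ⟨((a.den * b.den : ℕ) : Ei), ⟨a.num * b.den, b.num * a.den⟩, hn0, ?_⟩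
  have h5 : ev i₀ hi ⟨a.num * b.den, b.num * a.den⟩ = t * ((a.den * b.den : ℕ) : QB) := by
    rw [e, ev_apply]
    show ((a.num * b.den : ℤ) + ((b.num * a.den : ℤ) : QB) * i₀) = _
    have ha : (a : QB) = a.num / a.den := by
      conv_lhs => rw [← Rat.num_div_den a]
      push_cast
      rfl
    have hb : (b : QB) = b.num / b.den := by
      conv_lhs => rw [← Rat.num_div_den b]
      push_cast
      rfl
    rw [ha, hb]
    push_cast
    field_simp
  by_contra hne
  refine ev_ne hi (sub_ne_zero.2 hne) ?_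
  rw [map_sub, map_mul, map_pow, map_pow, h5, map_natCast, ← hs]
  change t ^ 3 * _ - _ = 0
  ring

variable {J : Type} [Fintype J] {π : J → Ei} {e : J → ZMod 3}

/-- the exponent of `lam` -/
lemma expl (hD : Dt π e) (x : J → ℕ) (c : ℕ) {h : GK i₀ → ZMod 3}
    (hk : Kc hi ((∏ j, π j ^ x j) * 3 ^ c) h) (h0 : ∀ σ, h σ = 0) : 3 ∣ c := by
  obtain ⟨y, z, hy, hyz⟩ := cube_of_triv hk h0
  have hp := prime_lam
  have hB0 : ∏ j, π j ^ x j ≠ 0 :=
    Finset.prod_ne_zero_iff.2 fun j _ => pow_ne_zero _ (hD.pq j).prime.ne_zero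
  have h30 : (3 : Ei) ≠ 0 := by decide
  have hz : z ≠ 0 := by
    rintro rfl
    rw [zero_pow three_ne_zero] at hyz
    exact mul_ne_zero (mul_ne_zero hB0 (pow_ne_zero c h30)) (pow_ne_zero 3 hy) hyz
  have hndB : ¬ lam ∣ ∏ j, π j ^ x j := by
    rw [hp.dvd_finsetProd_iff]
    rintro ⟨j, -, hj⟩
    have h1 := hp.dvd_of_dvd_pow hj
    exact not_assoc_lam (hD.pq j) ((hp.dvd_prime_iff_associated (hD.pq j).prime).1 h1).symm
  have hf : ∀ t : Ei, t ≠ 0 → FiniteMultiplicity lam t := fun t ht =>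
    FiniteMultiplicity.of_prime_left hp ht
  have m3 : multiplicity lam (3 : Ei) = 2 := by
    have e3 : (3 : Ei) = lam ^ 2 * -1 := by rw [lam_sq]; ring
    rw [e3, multiplicity_mul hp (by rw [← e3]; exact hf 3 h30),
      multiplicity_pow_self_of_prime hp, multiplicity_eq_zero.2, add_zero]
    intro h1
    exact hp.not_unit (isUnit_of_dvd_unit h1 isUnit_neg_one)
  have h1 := congrArg (multiplicity lam) hyz
  rw [multiplicity_mul hp (by rw [hyz]; exact hf _ (pow_ne_zero 3 hz)),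
    multiplicity_mul hp (hf _ (mul_ne_zero hB0 (pow_ne_zero c h30))),
    multiplicity_eq_zero.2 hndB, (hf 3 h30).multiplicity_pow hp,
    (hf y hy).multiplicity_pow hp, (hf z hz).multiplicity_pow hp, m3] at h1
  omega

/-- `3 D` is not a cube -/
lemma a_ne3' (hD : Dt π e) {u : QB} {a : GK i₀ → ZMod 3}
    (hT : Tw hi (3 * pD π e) u a) : ∃ σ, a σ ≠ 0 := by
  by_contra hcon
  push Not at hcon
  have hb : Kc hi (3 * pD π e) (fun σ => -a σ) :=
    kc_of hi (root_ne (hi := hi) (three_pD_ne hD) hT.cube) hT.cube hT.act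
  have e1 : 3 * pD π e = (∏ j, π j ^ (e j).val) * 3 ^ 1 := by
    unfold pD
    rw [pow_one, mul_comm]
  rw [e1] at hb
  have h1 := expl hD _ 1 hb (fun σ => by rw [hcon σ, neg_zero])
  omega

end Pool.Agent.E8helper41.CTK3
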