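import Pool.Agent.E8helper20.CTK3.StmA
import Pool.Agent.Y737.CTK.Trf
import Pool.Agent.Y350.CTK.Mw
import Pool.Agent.Y891.CTK.Sht
import Pool.Agent.Y405.CTK.MwcTor
import Pool.Agent.Y811.CTK.PLC
import Pool.Agent.Y954.CTK.SHC
import Pool.Agent.H70CT.SHC
import Pool.Agent.Y319.CT.FF
import Pool.Agent.Y379.CT.Cub
import Pool.Agent.Y674.CT.PT
import Pool.Agent.Y350.CT.REC
import Pool.Agent.E8helper2.CT3.Sup
import Pool.Agent.E8helper23.CT3.SEL
import Pool.Agent.E8helper23.CT3.RAM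
import Pool.Agent.E8helper87.CT3.Loc33
import Pool.Agent.E8helper87.CT3.Cub33
import Pool.Agent.E8helper85.CT3.Kloc3
import Pool.Agent.E8helper85.CT3.Desc3
import Pool.Agent.E8helper41.CTK3.Exl

/-!
# Project CTK3, A4: the descent and the torsion over `K` for `y² + 3 D y = x³`
-/

set_option autoImplicit false
set_option linter.unusedSectionVars false

open scoped Classical

namespace Pool.Agent.E8helper41.CTK3

open NumberField WeierstrassCurve
open Pool.Agent.Y692.QS (Ei w nr toC)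
open Pool.Agent.Y715.T.Rec (cs)
open Pool.Agent.Y715.T.RecG (Pq)
open Pool.Agent.Y703.CT
open Pool.Agent.Y715.T.Gi Pool.Agent.Y715.T.Nr Pool.Agent.Y715.T.Df Pool.Agent.Y715.T.Ell
open Pool.Agent.Y715.T.Sel (kc_mul kc_pow root_ne)
open Pool.Agent.Y48.CT.SEL (pr0)
open Pool.Agent.Y155.CT (a_mul a_cont)
open Pool.Agent.TH841.NF.D (Sha)
open Pool.Agent.Y696.CTK (ED IsTam Tri tors)
open Pool.Agent.E8helper20.CT3
open Pool.Agent.E8helper85.CT3 (three_pD_ne descK3 exp0)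

/-- **TORK3**: the torsion over `K` -/
theorem t_TORK3 : Pool.Agent.E8helper20.CTK3.S_TORK3 := by
  intro K _ _ j J _ π e hD
  have hne : 3 * pD π e ≠ 0 := three_pD_ne hD
  obtain ⟨e', i₀, hi, u, a, Ψ, g, hdata⟩ := Pool.Agent.Y737.CTK.trf K j _ hne
  exact Pool.Agent.Y405.CTK.t_TORK K j _ hne e' i₀ hi u a Ψ g hdata (a_ne3' hD hdata.1)

/-- a Selmer group that is generated by the class of the curve: the kernel is trivial -/
theorem ker_of_sel {J : Type} [Fintype J] {π : J → Ei} {e : J → ZMod 3} (hD : Dt π e)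
    {i₀ : QB} {hi : i₀ ^ 2 + i₀ + 1 = 0} {u : QB} {a : GK i₀ → ZMod 3}
    (hT : Tw hi (3 * pD π e) u a) (hsel : Sel1 hi a) : Ker3 π e := by
  intro v hv
  have hne : 3 * pD π e ≠ 0 := three_pD_ne hD
  have hB0 : (∏ j, π j ^ (e j * v j).val) ≠ 0 := pr0 hD _
  obtain ⟨β, a', hTw'⟩ := Pool.Agent.Y363.CT.SELC.exists_tw (hi := hi)
    (∏ j, π j ^ (e j * v j).val)
  have hm : ∀ σ τ : GK i₀, -a' (σ * τ) = -a' σ + -a' τ := by
    intro σ τ
    rw [a_mul hB0 hTw' σ τ]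
    ring
  have hc : IsLocallyConstant (fun σ : GK i₀ => -a' σ) :=
    (a_cont hB0 hTw').comp (fun c : ZMod 3 => -c)
  have hKc : Kc hi (∏ j, π j ^ (e j * v j).val) (fun σ => -a' σ) :=
    kc_of hi (root_ne (hi := hi) hB0 hTw'.cube) hTw'.cube hTw'.act
  have hloc : ∀ (p : ℕ) [Fact p.Prime] (ι : QB →ₐ[ℚ] PadicAlgCl p),
      ∃ R, St1 hi ι a (fun σ => -a' σ) R :=
    Pool.Agent.E8helper85.CT3.t_KLOC3 Pool.Agent.Y350.CT.rec Pool.Agent.E8helper2.CT3.t_SUP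
      Pool.Agent.Y319.CT.t_FF Pool.Agent.Y379.CT.t_CUB Pool.Agent.E8helper87.CT3.t_CUB33
      Pool.Agent.Y674.CT.t_PT Pool.Agent.E8helper23.CT3.t_RAMC3 J π e hD i₀ hi u a hT v hv _ hKc
  obtain ⟨c, hc'⟩ := hsel _ hc hm hloc
  have hb : Kc hi (3 * pD π e) (fun σ => -a σ) :=
    kc_of hi (root_ne (hi := hi) hne hT.cube) hT.cube hT.act
  have h1 := kc_mul hB0 (pow_ne_zero c.val hne) hKc (kc_pow hne hb c.val)
  have e1 : (∏ j, π j ^ (e j * v j).val) * (3 * pD π e) ^ c.val =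
      (∏ j, π j ^ ((e j * v j).val + (e j).val * c.val)) * 3 ^ c.val := by
    unfold pD
    rw [mul_pow, ← Finset.prod_pow, mul_comm (3 ^ c.val), ← mul_assoc,
      ← Finset.prod_mul_distrib]
    congr 1
    refine Finset.prod_congr rfl fun i _ => ?_
    rw [← pow_mul, ← pow_add]
  rw [e1] at h1
  have h2 : ∀ σ, (fun σ => -a' σ + (c.val : ZMod 3) * -a σ) σ = 0 := by
    intro σ
    have h3 : -a' σ = c * a σ := hc' σ
    show -a' σ + (c.val : ZMod 3) * -a σ = 0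
    rw [h3, ZMod.natCast_zmod_val]
    ring
  -- the exponent of `lam`
  have h3 : 3 ∣ c.val := expl hD _ c.val h1 h2
  have h4 : c = 0 := by
    have h5 : ((c.val : ℕ) : ZMod 3) = 0 := (ZMod.natCast_eq_zero_iff _ _).2 h3
    rwa [ZMod.natCast_zmod_val] at h5
  intro j
  have h5 := exp0 hD _ c.val h1 h2 j
  push_cast at h5
  rw [ZMod.natCast_zmod_val, ZMod.natCast_zmod_val, ZMod.natCast_zmod_val, h4, mul_zero,
    add_zero] at h5
  rcases mul_eq_zero.1 h5 with h6 | h6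
  · exact absurd h6 (hD.e0 j)
  · exact h6

/-- **TRIK3**: the descent over `K` -/
theorem t_TRIK3 : Pool.Agent.E8helper20.CTK3.S_TRIK3 := by
  intro K _ _ j J _ _ π e hD
  have hne : 3 * pD π e ≠ 0 := three_pD_ne hD
  constructor
  · rintro ⟨h1, h2⟩
    obtain ⟨e', i₀, hi, u, a, Ψ, g, hdata⟩ := Pool.Agent.Y737.CTK.trf K j _ hne
    have hT := hdata.1
    have ha := a_ne3' hD hT
    have hM := Pool.Agent.Y405.CTK.t_MWC K j _ hne e' i₀ hi u a Ψ g hdata ha h1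
    have hS := Pool.Agent.Y954.CTK.shc Pool.Agent.Y811.CTK.t_PLC K j _ hne e' i₀ hi u a Ψ g
      hdata h2
    exact ker_of_sel hD hT (Pool.Agent.H70CT.t_SHC _ hne i₀ hi u a hT ha hS hM)
  · intro hk
    have hd := fun (i₀ : QB) (hi : i₀ ^ 2 + i₀ + 1 = 0) (u : QB) (a : GK i₀ → ZMod 3)
        (hT : Tw hi (3 * pD π e) u a) =>
      descK3 Pool.Agent.E8helper23.CT3.SEL.t_SEL3 Pool.Agent.Y350.CT.rec
        Pool.Agent.E8helper87.CT3.t_LOC33 Pool.Agent.E8helper23.CT3.t_RAM3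
        Pool.Agent.E8helper23.CT3.t_UNR3 hD hk hT
    exact ⟨(Pool.Agent.Y350.CTK.mw Pool.Agent.Y737.CTK.trf K j _ hne fun i₀ hi u a hT =>
        (hd i₀ hi u a hT).2).1,
      Pool.Agent.Y891.CTK.sht Pool.Agent.Y737.CTK.trf K j _ hne fun i₀ hi u a hT =>
        (hd i₀ hi u a hT).1⟩

end Pool.Agent.E8helper41.CTK3
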